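import Mathlib
import Pool.Agent.R769.UN.Univ

/-!
# A universal countable periodic locally nilpotent group

For every prime `p` let `U_p` be the group of permutations `u` of the finitely supported functions
`x : ℚ → ℤ/p` such that for some finite `F ⊆ ℚ` the permutation `u` changes only coordinates in
`F`, and the change of the coordinate `l ∈ F` depends only on the coordinates in `F` below `l`.
`U_p` is a countable locally finite `p`-group.  Every countable locally finite `p`-group `G` embeds
in `U_p`: by compactness `G` has a level function `G → ℚ` inducing a chief series on every finite
subgroup, and an increasing chain of finite subgroups gets compatible coordinates for which the left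
multiplications are triangular.  The restricted direct product of the `U_p` is universal for the
countable periodic locally nilpotent groups.
-/

set_option autoImplicit false

namespace Pool.Agent.Results.MP_199925_al.UniversalLocallyNilpotent

open Pool.Agent.R769.UN

universe u

/-- There is a countable periodic locally nilpotent group in which every countable periodic locally
nilpotent group embeds. -/
theorem result : ∃ (U : Type) (_ : Group U), Countable U ∧ (∀ g : U, IsOfFinOrder g) ∧
    (∀ H : Subgroup U, H.FG → Group.IsNilpotent H) ∧
    ∀ (G : Type u) [Group G], Countable G → (∀ g : G, IsOfFinOrder g) →
      (∀ H : Subgroup G, H.FG → Group.IsNilpotent H) →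
      ∃ f : G →* U, Function.Injective f :=
  ⟨Univ, inferInstance, inferInstance, univ_finOrder, univ_nilpotent,
    fun G _ _ ht hn => exists_embedding_univ G ht hn⟩

end Pool.Agent.Results.MP_199925_al.UniversalLocallyNilpotent
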